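import Pool.Agent.HE996.Crit

/-!
# MP_66c627_co, Q1: no symmetric cocyclic Hadamard matrices over `ℤ₂² × ℤₜ` for most `t`

Let `t > 1` be odd and let `ψ` be a normalised cocycle on `ℤ₂² × ℤₜ` with values `±1` such that
`M_ψ` is Hadamard. We show that `ψ` is not symmetric (its transgression component is nontrivial)
unless for every prime power `p ^ s` exactly dividing `t`, with `t = p ^ s * m`, one has
`s ≥ 2`, `p < 4 m` and `p ^ k ≢ -1` modulo `4 m` for all `k`. So Q1 holds

* for all `t` divisible by some prime exactly once (for instance for all squarefree `t > 1`),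
* for all prime powers `t`,
* for all `t < 225`; below `10000` only 19 values of `t` are left.

Method. For symmetric `ψ` the extension `E` of `G = ℤ₂² × ℤₜ` by `{1, -1}` is abelian and the sign
gives `f` in `ℤ[E]` with `f f* = 4 t · 2 (1 - n)`, where `n` is the central involution. Write
`E = H × C` with `C` cyclic of order `p ^ s` and `p` prime to the order of `H`, let `S = ℤ[H]`, and let
`M` be a prime ideal of `S` containing `p`; `p` is unramified at `M`. Modulo `M` the group ring
of `C` is a truncated polynomial ring in `c - 1`, and comparing the orders of vanishing of `f`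
and `f*` modulo `M` with the exact divisibility of `f f*` by `p ^ s` (through the identity
`(c - 1) ^ φ(p ^ s) = Σ + p κ`, `κ` of augmentation `-1`) one finds: if `s = 1` then `f` or `f*` vanishes
modulo `M`; if `s ≥ 2` then `f` or `f*` is constant modulo `M` on the cosets of the subgroup of order `p`.
Hence, for the slices `f_j` in `S`, `f_j f_j* ≡ 0` modulo `p` if `s = 1`, which contradicts `p ∤ |H|`, and
`(f_j - f_i)(f_j - f_i)* ≡ 0` modulo `p` if `s ≥ 2` and `i`, `j` are in the same coset of the subgroup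
of order `p`. In the latter case the number of disagreements of two slices is divisible by `2 p` and at
most `2 · 4 m`.
-/

set_option autoImplicit false

namespace Pool.Agent.Results.MP_66c627_co.SymmetricCocycles

/-- Let `t > 1` be odd and suppose that some prime divides `t` exactly once, or that `t` is a prime
power, or that `t < 225`, or that `t = p ^ s * m` with `p` prime, `p ∤ m`, `s ≥ 1` and `4 m < p` or
`4 m ∣ p ^ k + 1` for some `k`. Then every normalised cocycle `ψ` on `ℤ₂² × ℤₜ` with values `±1` whose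
cocyclic matrix is Hadamard is not symmetric. -/
theorem result (t : ℕ) [NeZero t] (ht : 1 < t) (hodd : Odd t)
    (hcond : (∃ p, p.Prime ∧ p ∣ t ∧ ¬ p ^ 2 ∣ t) ∨ IsPrimePow t ∨ t < 225 ∨
      ∃ p s m : ℕ, p.Prime ∧ t = p ^ s * m ∧ ¬ p ∣ m ∧ 1 ≤ s ∧
        (4 * m < p ∨ ∃ k, 4 * m ∣ p ^ k + 1))
    (ψ : (ZMod 2 × ZMod 2 × ZMod t) → (ZMod 2 × ZMod 2 × ZMod t) → ℤ)
    (hψ : ∀ g h, ψ g h = 1 ∨ ψ g h = -1)
    (h0 : ψ 0 0 = 1)
    (hc : ∀ g h k, ψ g h * ψ (g + h) k = ψ g (h + k) * ψ h k)
    (hM : Matrix.of ψ * Matrix.transpose (Matrix.of ψ) =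
      (4 * (t : ℤ)) • (1 : Matrix (ZMod 2 × ZMod 2 × ZMod t) (ZMod 2 × ZMod 2 × ZMod t) ℤ)) :
    ∃ g h, ψ g h ≠ ψ h g := by
  apply HE996.main_t t hodd _ ψ hψ h0 hc hM
  rcases hcond with ⟨p, hp, h1, h2⟩ | h | h | ⟨p, s, m, hp, h1, h2, h3, h4⟩
  · exact HE996.good_of_exact t p (by omega) hp h1 h2
  · exact HE996.good_of_primePow t hodd h
  · exact HE996.good_small t ht hodd h
  · exact ⟨p, s, m, hp, h1, h2, h3, Or.inr h4⟩

end Pool.Agent.Results.MP_66c627_co.SymmetricCocycles
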